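import Mathlib

set_option autoImplicit false

/-! Matthews' map: the trajectories without multiples of 3, seen backwards (the number of ways back
is controlled mod 7) and forwards (residues mod powers of 3). -/

namespace Pool.Agent.TH930.MV

open Finset

/-- the map -/
def T (x : ℤ) : ℤ :=
  if x % 3 = 0 then 2 * x else if x % 3 = 1 then (7 * x + 2) / 3 else (x - 2) / 3

/-- the first `k` terms are no multiples of 3 -/
def Av (k : ℕ) (x : ℤ) : Prop := ∀ j < k, (T^[j] x) % 3 ≠ 0

/-- state: length mod 6 of the first run of steps down -/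
def st : ℕ → ℤ → ℕ
  | 0, _ => 0
  | k + 1, x => if x % 3 = 1 then 0 else if st k (T x) = 5 then 0 else st k (T x) + 1

/-- number of blocks of six steps down -/
def bb : ℕ → ℤ → ℕ
  | 0, _ => 0
  | k + 1, x => if x % 3 = 1 then bb k (T x) else bb k (T x) + (if st k (T x) = 5 then 1 else 0)

/-- number of steps up -/
def aa : ℕ → ℤ → ℕ
  | 0, _ => 0
  | k + 1, x => aa k (T x) + (if x % 3 = 1 then 1 else 0)

lemma Av_succ {k : ℕ} {x : ℤ} (h : Av (k + 1) x) : x % 3 ≠ 0 ∧ Av k (T x) := by
  refine ⟨h 0 (by omega), fun j hj => ?_⟩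
  have := h (j + 1) (by omega)
  rwa [Function.iterate_succ_apply] at this

lemma st_le : ∀ (k : ℕ) (x : ℤ), st k x ≤ 5
  | 0, _ => by simp [st]
  | k + 1, x => by
      have := st_le k (T x)
      rw [st]
      split_ifs <;> omega

lemma aa_le : ∀ (k : ℕ) (x : ℤ), aa k x ≤ k
  | 0, _ => by simp [aa]
  | k + 1, x => by
      have := aa_le k (T x)
      rw [aa]
      split_ifs <;> omega

lemma bb_le : ∀ (k : ℕ) (x : ℤ), bb k x ≤ k
  | 0, _ => by simp [bb]
  | k + 1, x => by
      have := bb_le k (T x)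
      rw [bb]
      split_ifs <;> omega

lemma T_up {x : ℤ} (h : x % 3 = 1) : 3 * T x = 7 * x + 2 := by
  unfold T
  rw [if_neg (by omega), if_pos h]
  omega

lemma T_down {x : ℤ} (h : x % 3 = 2) : 3 * T x = x - 2 := by
  unfold T
  rw [if_neg (by omega), if_neg (by omega)]
  omega

lemma T_inv_down (y : ℤ) : T (3 * y + 2) = y := by
  have := T_down (x := 3 * y + 2) (by omega)
  omega

lemma T_inv_up {y : ℤ} (h : y % 7 = 3) : ((3 * y - 2) / 7) % 3 = 1 ∧ T ((3 * y - 2) / 7) = y := by
  have h1 : ((3 * y - 2) / 7) % 3 = 1 := by omega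
  refine ⟨h1, ?_⟩
  have := T_up h1
  omega

/-- how many steps down before a step up is possible (backwards) -/
def ee (r : ℕ) : ℕ :=
  if r = 3 then 0 else if r = 5 then 1 else if r = 1 then 2 else if r = 2 then 3
  else if r = 0 then 4 else 5

/-- the exponent of the potential -/
def pw (r j : ℕ) : ℕ := if r = 6 then 0 else (ee r + j) / 6

lemma pw_step : ∀ r < 7, ∀ j < 6,
    pw r j ≤ (if j = 5 then 1 else 0) + pw ((3 * r + 2) % 7) (if j = 5 then 0 else j + 1) := by
  decide

lemma pw_three : ∀ j < 6, pw 3 j = 0 ∧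
    1 ≤ (if j = 5 then 1 else 0) + pw ((3 * 3 + 2) % 7) (if j = 5 then 0 else j + 1) := by
  decide

lemma pw_le_one : ∀ r < 7, ∀ j < 6, pw r j ≤ 1 := by decide

/-- the weight -/
noncomputable def ww (q : ℝ) (k : ℕ) (x : ℤ) : ℝ :=
  q ^ (bb k x + pw (x % 7).toNat (st k x)) * (1 - q) ^ aa k x

/-- the ways back -/
theorem tree {q : ℝ} (hq0 : 0 < q) (hq1 : q < 1) (k : ℕ) : ∀ (y : ℤ) (S : Finset ℤ),
    (∀ x ∈ S, Av k x ∧ T^[k] x = y) → ∑ x ∈ S, ww q k x ≤ 1 := by
  have h1q : 0 < 1 - q := by linarith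
  have hww : ∀ k x, 0 ≤ ww q k x := fun k x => by unfold ww; positivity
  induction k with
  | zero =>
    intro y S hS
    have hsub : S ⊆ {y} := by
      intro x hx
      rw [mem_singleton]
      exact (hS x hx).2
    refine (sum_le_sum_of_subset_of_nonneg hsub (fun x _ _ => hww 0 x)).trans ?_
    rw [sum_singleton]
    unfold ww
    simp only [aa, bb, pow_zero, mul_one]
    exact pow_le_one₀ hq0.le hq1.le
  | succ k ih =>
    intro y S hS
    classical
    rw [← Finset.sum_fiberwise_of_maps_to (t := S.image T) (g := T)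
      (fun x hx => mem_image_of_mem T hx)]
    refine le_trans (sum_le_sum ?_) (ih y (S.image T) ?_)
    · intro x' _
      set j := st k x' with hj
      have hj5 : j < 6 := by have := st_le k x'; omega
      set r := (x' % 7).toNat with hr
      have hr7 : r < 7 := by omega
      set Wt := q ^ bb k x' * (1 - q) ^ aa k x' with hWt
      have hWt0 : 0 ≤ Wt := by positivity
      have hgoal : ww q k x' = Wt * q ^ pw r j := by
        unfold ww
        rw [pow_add]
        ring
      have hdown : ww q (k + 1) (3 * x' + 2) =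
          Wt * q ^ ((if j = 5 then 1 else 0) + pw ((3 * r + 2) % 7) (if j = 5 then 0 else j + 1)) := by
        unfold ww
        have h1 : ((3 * x' + 2) % 7).toNat = (3 * r + 2) % 7 := by omega
        have h2 : ¬ (3 * x' + 2) % 3 = 1 := by omega
        rw [st, bb, aa, T_inv_down, h1, if_neg h2, if_neg h2, if_neg h2, ← hj, add_zero, add_assoc,
          pow_add]
        ring
      have hsplit : S.filter (fun x => T x = x') ⊆
          {3 * x' + 2} ∪ (if x' % 7 = 3 then {(3 * x' - 2) / 7} else ∅) := by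
        intro x hx
        rw [mem_filter] at hx
        have h3 := (Av_succ (hS x hx.1).1).1
        rcases (by omega : x % 3 = 1 ∨ x % 3 = 2) with h4 | h4
        · have h5 := T_up h4
          rw [hx.2] at h5
          have h6 : x' % 7 = 3 := by omega
          rw [if_pos h6]
          simp only [mem_union, mem_singleton]
          right; omega
        · have h5 := T_down h4
          rw [hx.2] at h5
          simp only [mem_union, mem_singleton]
          left; omega
      refine (sum_le_sum_of_subset_of_nonneg hsplit (fun x _ _ => hww _ x)).trans ?_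
      by_cases h7 : x' % 7 = 3
      · rw [if_pos h7]
        have hU : ∑ x ∈ ({3 * x' + 2} ∪ {(3 * x' - 2) / 7} : Finset ℤ), ww q (k + 1) x ≤
            ∑ x ∈ ({3 * x' + 2} : Finset ℤ), ww q (k + 1) x + ∑ x ∈ ({(3 * x' - 2) / 7} : Finset ℤ), ww q (k + 1) x := by
          rw [← sum_union_inter]
          have : 0 ≤ ∑ x ∈ ({3 * x' + 2} ∩ {(3 * x' - 2) / 7} : Finset ℤ), ww q (k + 1) x :=
            sum_nonneg (fun x _ => hww _ x)
          linarith
        refine hU.trans ?_
        rw [sum_singleton, sum_singleton, hgoal, hdown]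
        have hr3 : r = 3 := by omega
        obtain ⟨h8, h9⟩ := T_inv_up h7
        have hup : ww q (k + 1) ((3 * x' - 2) / 7) ≤ Wt * (1 - q) := by
          unfold ww
          rw [st, bb, aa, h9, if_pos h8, if_pos h8, if_pos h8, pow_add, pow_succ (1 - q)]
          have h10 : q ^ pw ((3 * x' - 2) / 7 % 7).toNat 0 ≤ 1 := pow_le_one₀ hq0.le hq1.le
          calc q ^ bb k x' * q ^ pw ((3 * x' - 2) / 7 % 7).toNat 0 * ((1 - q) ^ aa k x' * (1 - q))
              = (Wt * (1 - q)) * q ^ pw ((3 * x' - 2) / 7 % 7).toNat 0 := by rw [hWt]; ring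
            _ ≤ (Wt * (1 - q)) * 1 := by
                apply mul_le_mul_of_nonneg_left h10
                positivity
            _ = Wt * (1 - q) := mul_one _
        rw [hr3] at hdown ⊢
        obtain ⟨h11, h12⟩ := pw_three j hj5
        rw [h11, pow_zero, mul_one]
        have h13 : q ^ ((if j = 5 then 1 else 0) + pw ((3 * 3 + 2) % 7) (if j = 5 then 0 else j + 1)) ≤ q ^ 1 :=
          pow_le_pow_of_le_one hq0.le hq1.le h12
        rw [pow_one] at h13
        nlinarith [mul_le_mul_of_nonneg_left h13 hWt0]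
      · rw [if_neg h7, union_empty, sum_singleton, hgoal, hdown]
        apply mul_le_mul_of_nonneg_left _ hWt0
        exact pow_le_pow_of_le_one hq0.le hq1.le (pw_step r hr7 j hj5)
    · intro x' hx'
      obtain ⟨x, hx, rfl⟩ := mem_image.1 hx'
      have h1 := hS x hx
      rw [Function.iterate_succ_apply] at h1
      exact ⟨(Av_succ h1.1).2, h1.2⟩

/-- the transfer operator of the free words -/
noncomputable def LL (z v : ℝ) (g : ℕ → ℝ) (j : ℕ) : ℝ := z * g 0 + if j = 5 then v * g 0 else g (j + 1)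

lemma iter_add (z v : ℝ) (k : ℕ) : ∀ g h : ℕ → ℝ,
    (LL z v)^[k] (fun j => g j + h j) = fun j => (LL z v)^[k] g j + (LL z v)^[k] h j := by
  induction k with
  | zero => intro g h; rfl
  | succ k ih =>
    intro g h
    have h1 : LL z v (fun j => g j + h j) = fun j => LL z v g j + LL z v h j := by
      funext j
      unfold LL
      split_ifs <;> ring
    rw [Function.iterate_succ_apply, h1, ih, Function.iterate_succ_apply, Function.iterate_succ_apply]

lemma iter_le {z v Λ : ℝ} (hz : 0 ≤ z) (hv : 0 ≤ v) (hΛ : 0 ≤ Λ) {Θ : ℕ → ℝ}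
    (h : ∀ j ≤ 5, LL z v Θ j ≤ Λ * Θ j) (k : ℕ) : ∀ j ≤ 5, (LL z v)^[k] Θ j ≤ Λ ^ k * Θ j := by
  induction k with
  | zero => intro j _; simp
  | succ k ih =>
    intro j hj
    rw [Function.iterate_succ_apply']
    have h0 := ih 0 (by omega)
    have h1 : LL z v ((LL z v)^[k] Θ) j ≤ Λ ^ k * LL z v Θ j := by
      unfold LL at h0 ⊢
      by_cases h5 : j = 5
      · rw [if_pos h5, if_pos h5]
        nlinarith [mul_le_mul_of_nonneg_left h0 hz, mul_le_mul_of_nonneg_left h0 hv]
      · rw [if_neg h5, if_neg h5]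
        have h6 := ih (j + 1) (by omega)
        unfold LL at h6
        nlinarith [mul_le_mul_of_nonneg_left h0 hz]
    refine h1.trans ?_
    rw [pow_succ, mul_assoc]
    exact mul_le_mul_of_nonneg_left (h j hj) (by positivity)

/-- the free count -/
theorem free {z v : ℝ} (hz : 0 ≤ z) (hv : 0 ≤ v) (k : ℕ) : ∀ (g : ℕ → ℝ), (∀ j, 0 ≤ g j) →
    ∀ S : Finset ℤ, (∀ x ∈ S, Av k x) → (∀ x ∈ S, ∀ y ∈ S, (3 : ℤ) ^ k ∣ x - y → x = y) →
    ∑ x ∈ S, z ^ aa k x * v ^ bb k x * g (st k x) ≤ (LL z v)^[k] g 0 := by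
  induction k with
  | zero =>
    intro g hg S hS hd
    simp only [aa, bb, st, pow_zero, one_mul, Function.iterate_zero, id_eq]
    rw [sum_const, nsmul_eq_mul]
    have hc : S.card ≤ 1 := by
      rw [card_le_one]
      intro x hx y hy
      exact hd x hx y hy (by simp)
    have hc' : (S.card : ℝ) ≤ 1 := by exact_mod_cast hc
    nlinarith [hg 0]
  | succ k ih =>
    intro g hg S hS hd
    classical
    have hpow : (3 : ℤ) ^ (k + 1) = 3 ^ k * 3 := pow_succ _ _
    -- steps up
    have hinj1 : ∀ x ∈ S.filter (fun x => x % 3 = 1), ∀ y ∈ S.filter (fun x => x % 3 = 1),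
        (3 : ℤ) ^ k ∣ T x - T y → x = y := by
      intro x hx y hy hxy
      rw [mem_filter] at hx hy
      apply hd x hx.1 y hy.1
      have h1 := T_up hx.2
      have h2 := T_up hy.2
      rw [hpow]
      have h3 : (3 : ℤ) ^ k * 3 ∣ 7 * (x - y) := by
        have : 7 * (x - y) = (T x - T y) * 3 := by linarith
        rw [this]
        exact mul_dvd_mul_right hxy 3
      have hcop : IsCoprime ((3 : ℤ) ^ k * 3) 7 := by
        rw [← hpow]
        apply IsCoprime.pow_left
        exact ⟨-2, 1, by norm_num⟩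
      exact hcop.dvd_of_dvd_mul_left h3
    have hinj2 : ∀ x ∈ S.filter (fun x => ¬ x % 3 = 1), ∀ y ∈ S.filter (fun x => ¬ x % 3 = 1),
        (3 : ℤ) ^ k ∣ T x - T y → x = y := by
      intro x hx y hy hxy
      rw [mem_filter] at hx hy
      apply hd x hx.1 y hy.1
      have hx3 := (Av_succ (hS x hx.1)).1
      have hy3 := (Av_succ (hS y hy.1)).1
      have h1 := T_down (x := x) (by omega)
      have h2 := T_down (x := y) (by omega)
      rw [hpow]
      have : x - y = (T x - T y) * 3 := by linarith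
      rw [this]
      exact mul_dvd_mul_right hxy 3
    have E1 : ∑ x ∈ S.filter (fun x => x % 3 = 1), z ^ aa (k + 1) x * v ^ bb (k + 1) x * g (st (k + 1) x)
        ≤ (LL z v)^[k] (fun _ => z * g 0) 0 := by
      have h1 := ih (fun _ => z * g 0) (fun _ => mul_nonneg hz (hg 0))
        ((S.filter (fun x => x % 3 = 1)).image T)
        (by
          intro x' hx'
          obtain ⟨x, hx, rfl⟩ := mem_image.1 hx'
          exact (Av_succ (hS x (mem_filter.1 hx).1)).2)
        (by
          intro x' hx' y' hy' hxy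
          obtain ⟨x, hx, rfl⟩ := mem_image.1 hx'
          obtain ⟨y, hy, rfl⟩ := mem_image.1 hy'
          rw [hinj1 x hx y hy hxy])
      refine le_trans (le_of_eq ?_) h1
      rw [sum_image (by
        intro x hx y hy hxy
        exact hinj1 x hx y hy (by rw [hxy, sub_self]; exact dvd_zero _))]
      refine sum_congr rfl fun x hx => ?_
      have hx1 := (mem_filter.1 hx).2
      rw [aa, bb, st, if_pos hx1, if_pos hx1, if_pos hx1, pow_succ]
      ring
    have E2 : ∑ x ∈ S.filter (fun x => ¬ x % 3 = 1), z ^ aa (k + 1) x * v ^ bb (k + 1) x * g (st (k + 1) x)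
        ≤ (LL z v)^[k] (fun j => if j = 5 then v * g 0 else g (j + 1)) 0 := by
      have h1 := ih (fun j => if j = 5 then v * g 0 else g (j + 1))
        (fun j => by
          show 0 ≤ if j = 5 then v * g 0 else g (j + 1)
          split_ifs
          · exact mul_nonneg hv (hg 0)
          · exact hg _)
        ((S.filter (fun x => ¬ x % 3 = 1)).image T)
        (by
          intro x' hx'
          obtain ⟨x, hx, rfl⟩ := mem_image.1 hx'
          exact (Av_succ (hS x (mem_filter.1 hx).1)).2)
        (by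
          intro x' hx' y' hy' hxy
          obtain ⟨x, hx, rfl⟩ := mem_image.1 hx'
          obtain ⟨y, hy, rfl⟩ := mem_image.1 hy'
          rw [hinj2 x hx y hy hxy])
      refine le_trans (le_of_eq ?_) h1
      rw [sum_image (by
        intro x hx y hy hxy
        exact hinj2 x hx y hy (by rw [hxy, sub_self]; exact dvd_zero _))]
      refine sum_congr rfl fun x hx => ?_
      have hx1 := (mem_filter.1 hx).2
      rw [aa, bb, st, if_neg hx1, if_neg hx1, if_neg hx1, add_zero]
      by_cases h5 : st k (T x) = 5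
      · rw [if_pos h5, if_pos h5, if_pos h5, pow_succ]
        ring
      · rw [if_neg h5, if_neg h5, if_neg h5, add_zero]
    rw [← sum_filter_add_sum_filter_not S (fun x => x % 3 = 1)]
    refine (add_le_add E1 E2).trans (le_of_eq ?_)
    rw [Function.iterate_succ_apply]
    have h2 := congrFun (iter_add z v k (fun _ => z * g 0) (fun j => if j = 5 then v * g 0 else g (j + 1))) 0
    rw [← h2]
    rfl

/-- the size of the `k`-th iterate -/
theorem size (k : ℕ) : ∀ x : ℤ, Av k x →
    |((T^[k] x : ℤ) : ℝ) + 1| ≤ 7 ^ aa k x / 3 ^ k * |(x : ℝ) + 1| + ((7 / 3 : ℝ) ^ aa k x - 1) / 2 := by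
  induction k with
  | zero => intro x _; simp [aa]
  | succ k ih =>
    intro x hx
    obtain ⟨h3, h4⟩ := Av_succ hx
    have h5 := ih (T x) h4
    rw [Function.iterate_succ_apply]
    have hak := aa_le k (T x)
    set a := aa k (T x) with ha
    rcases (by omega : x % 3 = 1 ∨ x % 3 = 2) with h6 | h6
    · have h7 := T_up h6
      have h8 : (3 : ℝ) * (T x : ℝ) = 7 * x + 2 := by exact_mod_cast h7
      have h9 : |((T x : ℤ) : ℝ) + 1| ≤ (7 * |(x : ℝ) + 1| + 2) / 3 := by
        have e1 : ((T x : ℤ) : ℝ) + 1 = (7 * ((x : ℝ) + 1) - 2) / 3 := by linarith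
        rw [e1, abs_div, abs_of_pos (show (0 : ℝ) < 3 by norm_num)]
        apply div_le_div_of_nonneg_right _ (by norm_num)
        refine (abs_sub _ _).trans ?_
        rw [abs_mul, abs_of_pos (show (0 : ℝ) < 7 by norm_num), abs_of_pos (show (0 : ℝ) < 2 by norm_num)]
      rw [aa, if_pos h6, ← ha]
      refine h5.trans ?_
      have h10 : (7 : ℝ) ^ a / 3 ^ k * |((T x : ℤ) : ℝ) + 1| ≤
          (7 : ℝ) ^ a / 3 ^ k * ((7 * |(x : ℝ) + 1| + 2) / 3) :=
        mul_le_mul_of_nonneg_left h9 (by positivity)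
      have h11 : (7 : ℝ) ^ a / 3 ^ k ≤ (7 / 3 : ℝ) ^ a := by
        rw [div_pow]
        apply div_le_div_of_nonneg_left (by positivity) (by positivity)
        exact pow_le_pow_right₀ (by norm_num) hak
      have e2 : (7 : ℝ) ^ (a + 1) / 3 ^ (k + 1) * |(x : ℝ) + 1| =
          (7 : ℝ) ^ a / 3 ^ k * (7 * |(x : ℝ) + 1| / 3) := by
        rw [pow_succ, pow_succ]
        field_simp
      have e3 : (7 / 3 : ℝ) ^ (a + 1) = (7 / 3 : ℝ) ^ a * (7 / 3) := pow_succ _ _
      rw [e2, e3]
      have e4 : (7 : ℝ) ^ a / 3 ^ k * ((7 * |(x : ℝ) + 1| + 2) / 3) =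
          (7 : ℝ) ^ a / 3 ^ k * (7 * |(x : ℝ) + 1| / 3) + 2 / 3 * ((7 : ℝ) ^ a / 3 ^ k) := by ring
      linarith
    · have h7 := T_down h6
      have h8 : (3 : ℝ) * (T x : ℝ) = x - 2 := by exact_mod_cast h7
      have h9 : |((T x : ℤ) : ℝ) + 1| = |(x : ℝ) + 1| / 3 := by
        have e1 : ((T x : ℤ) : ℝ) + 1 = ((x : ℝ) + 1) / 3 := by linarith
        rw [e1, abs_div, abs_of_pos (show (0 : ℝ) < 3 by norm_num)]
      rw [aa, if_neg (by omega), ← ha, add_zero]
      refine h5.trans (le_of_eq ?_)
      rw [h9, pow_succ]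
      field_simp

end Pool.Agent.TH930.MV
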