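import Pool.Agent.TH930.MV.Base

set_option autoImplicit false

/-! Matthews' map: the number of integers whose trajectories avoid the multiples of 3. -/

namespace Pool.Agent.TH930.MV

open Finset

/-- the count below `3 ^ k` -/
def Bd (C : ℝ) (k : ℕ) : Prop := ∀ S : Finset ℤ, (∀ x ∈ S, |x| < 3 ^ k ∧ ∀ n, Av n x) →
  (S.card : ℝ) ≤ C * (1.9957 : ℝ) ^ k

theorem free2 {z v Λ : ℝ} (hz : 0 ≤ z) (hv : 0 ≤ v) (hΛ : 0 ≤ Λ) {Θ : ℕ → ℝ} (hΘ1 : ∀ j, 1 ≤ Θ j)
    (h : ∀ j ≤ 5, LL z v Θ j ≤ Λ * Θ j) (k : ℕ) (S : Finset ℤ)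
    (hS : ∀ x ∈ S, |x| < 3 ^ k ∧ Av k x) :
    ∑ x ∈ S, z ^ aa k x * v ^ bb k x ≤ 2 * (Λ ^ k * Θ 0) := by
  classical
  have key : ∀ P : Finset ℤ, P ⊆ S → ((∀ x ∈ P, 0 ≤ x) ∨ (∀ x ∈ P, x < 0)) →
      ∑ x ∈ P, z ^ aa k x * v ^ bb k x ≤ Λ ^ k * Θ 0 := by
    intro P hP hsg
    have h1 := free hz hv k Θ (fun j => zero_le_one.trans (hΘ1 j)) P (fun x hx => (hS x (hP hx)).2)
      (by
        intro x hx y hy hxy
        have hx1 := abs_lt.1 (hS x (hP hx)).1
        have hy1 := abs_lt.1 (hS y (hP hy)).1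
        have h2 : |x - y| < 3 ^ k := by
          rw [abs_lt]
          rcases hsg with hsg | hsg
          · have := hsg x hx; have := hsg y hy
            constructor <;> linarith [hx1.1, hx1.2, hy1.1, hy1.2]
          · have := hsg x hx; have := hsg y hy
            constructor <;> linarith [hx1.1, hx1.2, hy1.1, hy1.2]
        have := Int.eq_zero_of_abs_lt_dvd hxy h2
        linarith)
    refine le_trans (sum_le_sum fun x _ => ?_) (h1.trans (iter_le hz hv hΛ h k 0 (by norm_num)))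
    exact le_mul_of_one_le_right (by positivity) (hΘ1 _)
  rw [← sum_filter_add_sum_filter_not S (fun x => 0 ≤ x)]
  have h1 := key (S.filter (fun x => 0 ≤ x)) (filter_subset _ _) (Or.inl fun x hx => (mem_filter.1 hx).2)
  have h2 := key (S.filter (fun x => ¬ 0 ≤ x)) (filter_subset _ _)
    (Or.inr fun x hx => not_le.1 (mem_filter.1 hx).2)
  linarith

/-- the potential -/
noncomputable def Th (j : ℕ) : ℝ := if j = 0 then 1 else if j = 1 then 1.00744 else if j = 2 then 1.02405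
  else if j = 3 then 1.06018 else if j = 4 then 1.13879 else 1.30979

lemma Th_one (j : ℕ) : 1 ≤ Th j := by
  unfold Th
  split_ifs <;> norm_num

lemma Th_step : ∀ j ≤ 5, LL 1.16763 1.6818 Th j ≤ 2.1755 * Th j := by
  intro j hj
  unfold LL Th
  interval_cases j <;> norm_num

lemma pow_seven (a : ℕ) : (3 : ℝ) * 7 ^ a ≤ 3 ^ (62 * a / 35 + 2) := by
  have h1 : ((7 : ℝ) ^ a) ^ 35 ≤ ((3 : ℝ) ^ (62 * a / 35 + 1)) ^ 35 := by
    rw [← pow_mul, ← pow_mul]
    calc (7 : ℝ) ^ (a * 35) = ((7 : ℝ) ^ 35) ^ a := by rw [mul_comm, pow_mul]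
      _ ≤ ((3 : ℝ) ^ 62) ^ a := pow_le_pow_left₀ (by norm_num) (by norm_num) _
      _ = (3 : ℝ) ^ (62 * a) := by rw [← pow_mul]
      _ ≤ (3 : ℝ) ^ ((62 * a / 35 + 1) * 35) := pow_le_pow_right₀ (by norm_num) (by omega)
  have h2 := le_of_pow_le_pow_left₀ (by norm_num) (by positivity) h1
  calc (3 : ℝ) * 7 ^ a ≤ 3 * 3 ^ (62 * a / 35 + 1) := by linarith
    _ = 3 ^ (62 * a / 35 + 2) := by rw [pow_succ (3 : ℝ) (62 * a / 35 + 1)]; ring

lemma pow_kap (a : ℕ) : (1.9957 : ℝ) ^ (62 * a / 35) ≤ ((1.16763 : ℝ) ^ 8 * (1 - 1 / 64)) ^ a := by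
  have h1 : ((1.9957 : ℝ) ^ (62 * a / 35)) ^ 35 ≤ (((1.16763 : ℝ) ^ 8 * (1 - 1 / 64)) ^ a) ^ 35 := by
    calc ((1.9957 : ℝ) ^ (62 * a / 35)) ^ 35 = (1.9957 : ℝ) ^ (62 * a / 35 * 35) := by rw [← pow_mul]
      _ ≤ (1.9957 : ℝ) ^ (62 * a) := pow_le_pow_right₀ (by norm_num) (by omega)
      _ = ((1.9957 : ℝ) ^ 62) ^ a := by rw [← pow_mul]
      _ ≤ (((1.16763 : ℝ) ^ 8 * (1 - 1 / 64)) ^ 35) ^ a :=
          pow_le_pow_left₀ (by norm_num) (by norm_num) _
      _ = (((1.16763 : ℝ) ^ 8 * (1 - 1 / 64)) ^ a) ^ 35 := by rw [← pow_mul, ← pow_mul, mul_comm 35 a]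
  exact le_of_pow_le_pow_left₀ (by norm_num) (by positivity) h1

lemma Av_iter {x : ℤ} (h : ∀ n, Av n x) (k : ℕ) : ∀ n, Av n (T^[k] x) := by
  intro n j hj
  rw [← Function.iterate_add_apply]
  exact h (j + k + 1) (j + k) (by omega)

theorem class_bound {C : ℝ} (hC : 1 ≤ C) {k : ℕ} (hind : ∀ l < k, Bd C l) (S : Finset ℤ)
    (hS : ∀ x ∈ S, |x| < 3 ^ k ∧ ∀ n, Av n x) (a b : ℕ) (hab : ∀ x ∈ S, aa k x = a ∧ bb k x = b) :
    (S.card : ℝ) ^ 9 ≤ 65536 * C * ((2.1755 : ℝ) ^ 8) ^ k ∨ (S.card : ℝ) ≤ 4 * (1.99 : ℝ) ^ k := by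
  classical
  have hn0 : (0 : ℝ) ≤ S.card := Nat.cast_nonneg _
  rcases lt_or_ge (62 * a / 35 + 2) k with hl | hl
  · left
    have hA : (S.card : ℝ) * ((1.16763 : ℝ) ^ a * (1.6818 : ℝ) ^ b) ≤ 2 * (2.1755 : ℝ) ^ k := by
      have h1 := free2 (z := 1.16763) (v := 1.6818) (Λ := 2.1755) (by norm_num) (by norm_num) (by norm_num)
        Th_one Th_step k S (fun x hx => ⟨(hS x hx).1, (hS x hx).2 k⟩)
      have h2 : ∑ x ∈ S, (1.16763 : ℝ) ^ aa k x * (1.6818 : ℝ) ^ bb k x =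
          (S.card : ℝ) * ((1.16763 : ℝ) ^ a * (1.6818 : ℝ) ^ b) := by
        rw [sum_congr rfl (fun x hx => by rw [(hab x hx).1, (hab x hx).2]), sum_const, nsmul_eq_mul]
      rw [h2] at h1
      have h3 : Th 0 = 1 := by unfold Th; simp
      rw [h3, mul_one] at h1
      exact h1
    have hB : (S.card : ℝ) * ((1 / 64 : ℝ) ^ (b + 1) * (1 - 1 / 64 : ℝ) ^ a) ≤
        C * (1.9957 : ℝ) ^ (62 * a / 35 + 2) := by
      have h1 : (S.card : ℝ) * ((1 / 64 : ℝ) ^ (b + 1) * (1 - 1 / 64 : ℝ) ^ a) ≤ ∑ x ∈ S, ww (1 / 64) k x := by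
        rw [← nsmul_eq_mul, ← sum_const]
        refine sum_le_sum fun x hx => ?_
        unfold ww
        rw [(hab x hx).1, (hab x hx).2]
        apply mul_le_mul_of_nonneg_right _ (by norm_num)
        apply pow_le_pow_of_le_one (by norm_num) (by norm_num)
        have := pw_le_one (x % 7).toNat (by omega) (st k x) (by have := st_le k x; omega)
        omega
      refine h1.trans ?_
      rw [← Finset.sum_fiberwise_of_maps_to (t := S.image T^[k]) (g := T^[k])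
        (fun x hx => mem_image_of_mem _ hx)]
      have h2 : ∑ y ∈ S.image T^[k], ∑ x ∈ S.filter (fun x => T^[k] x = y), ww (1 / 64) k x ≤
          ∑ y ∈ S.image T^[k], (1 : ℝ) := by
        refine sum_le_sum fun y _ => ?_
        apply tree (by norm_num) (by norm_num) k y
        intro x hx
        rw [mem_filter] at hx
        exact ⟨(hS x hx.1).2 k, hx.2⟩
      refine h2.trans ?_
      rw [sum_const, nsmul_eq_mul, mul_one]
      apply hind _ hl
      intro y hy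
      obtain ⟨x, hx, rfl⟩ := mem_image.1 hy
      refine ⟨?_, Av_iter (hS x hx).2 k⟩
      have h3 := size k x ((hS x hx).2 k)
      rw [(hab x hx).1] at h3
      have h4 : |(x : ℝ) + 1| ≤ 3 ^ k := by
        have h5 := abs_lt.1 (hS x hx).1
        have h6 : |x + 1| ≤ 3 ^ k := by
          rw [abs_le]
          constructor <;> linarith [h5.1, h5.2]
        exact_mod_cast h6
      have h7 : (7 : ℝ) ^ a / 3 ^ k * |(x : ℝ) + 1| ≤ 7 ^ a := by
        calc (7 : ℝ) ^ a / 3 ^ k * |(x : ℝ) + 1| ≤ (7 : ℝ) ^ a / 3 ^ k * 3 ^ k :=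
              mul_le_mul_of_nonneg_left h4 (by positivity)
          _ = 7 ^ a := by field_simp
      have h8 : (7 / 3 : ℝ) ^ a ≤ 7 ^ a := pow_le_pow_left₀ (by norm_num) (by norm_num) _
      have h9 : (1 : ℝ) ≤ 7 ^ a := one_le_pow₀ (by norm_num)
      have h10 : |((T^[k] x : ℤ) : ℝ)| ≤ |((T^[k] x : ℤ) : ℝ) + 1| + 1 := by
        have := abs_sub (((T^[k] x : ℤ) : ℝ) + 1) 1
        rw [add_sub_cancel_right, abs_one] at this
        exact this
      have h11 := pow_seven a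
      have h12 : |((T^[k] x : ℤ) : ℝ)| < 3 ^ (62 * a / 35 + 2) := by linarith
      exact_mod_cast h12
    have hκ := pow_kap a
    set n : ℝ := (S.card : ℝ) with hn
    set Zc : ℝ := ((1.16763 : ℝ) ^ 8 * (1 - 1 / 64)) ^ a with hZc
    have hZc0 : 0 < Zc := by positivity
    have hV : (1 : ℝ) ≤ ((1.6818 : ℝ) ^ 8 * (1 / 64)) ^ b := one_le_pow₀ (by norm_num)
    set V : ℝ := ((1.6818 : ℝ) ^ 8 * (1 / 64)) ^ b with hVd
    have e1 : (n * ((1.16763 : ℝ) ^ a * (1.6818 : ℝ) ^ b)) ^ 8 *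
        (n * ((1 / 64 : ℝ) ^ (b + 1) * (1 - 1 / 64 : ℝ) ^ a)) = n ^ 9 * V * (1 / 64) * Zc := by
      rw [hZc, hVd, mul_pow ((1.16763 : ℝ) ^ 8), mul_pow ((1.6818 : ℝ) ^ 8), ← pow_mul (1.16763 : ℝ) 8 a,
        ← pow_mul (1.6818 : ℝ) 8 b, mul_pow n, mul_pow ((1.16763 : ℝ) ^ a), ← pow_mul (1.16763 : ℝ) a 8,
        ← pow_mul (1.6818 : ℝ) b 8, mul_comm a 8, mul_comm b 8, pow_succ (1 / 64 : ℝ) b]
      ring
    have e2 : (n * ((1.16763 : ℝ) ^ a * (1.6818 : ℝ) ^ b)) ^ 8 ≤ (2 * (2.1755 : ℝ) ^ k) ^ 8 :=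
      pow_le_pow_left₀ (by positivity) hA 8
    have e3 : n ^ 9 * V * (1 / 64) * Zc ≤ (2 * (2.1755 : ℝ) ^ k) ^ 8 * (C * (1.9957 : ℝ) ^ (62 * a / 35 + 2)) := by
      rw [← e1]
      exact mul_le_mul e2 hB (by
        have : (0 : ℝ) ≤ (1 - 1 / 64 : ℝ) ^ a := by norm_num
        positivity) (by positivity)
    have e4 : (2 * (2.1755 : ℝ) ^ k) ^ 8 = 256 * ((2.1755 : ℝ) ^ 8) ^ k := by
      rw [mul_pow, ← pow_mul, ← pow_mul, mul_comm k 8]
      norm_num
    rw [e4] at e3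
    set L8 : ℝ := ((2.1755 : ℝ) ^ 8) ^ k with hL8
    have hL80 : 0 < L8 := by positivity
    have e5 : (1.9957 : ℝ) ^ (62 * a / 35 + 2) ≤ 4 * Zc := by
      rw [pow_add]
      have : (1.9957 : ℝ) ^ 2 ≤ 4 := by norm_num
      calc (1.9957 : ℝ) ^ (62 * a / 35) * (1.9957 : ℝ) ^ 2 ≤ Zc * 4 :=
            mul_le_mul hκ this (by positivity) hZc0.le
        _ = 4 * Zc := by ring
    have e6 : n ^ 9 * V * (1 / 64) * Zc ≤ (1024 * C * L8) * Zc := by
      refine e3.trans ?_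
      calc 256 * L8 * (C * (1.9957 : ℝ) ^ (62 * a / 35 + 2)) ≤ 256 * L8 * (C * (4 * Zc)) := by
            apply mul_le_mul_of_nonneg_left _ (by positivity)
            exact mul_le_mul_of_nonneg_left e5 (by linarith)
        _ = (1024 * C * L8) * Zc := by ring
    have e7 := le_of_mul_le_mul_right e6 hZc0
    have e8 : n ^ 9 ≤ n ^ 9 * V := le_mul_of_one_le_right (by positivity) hV
    linarith
  · right
    have hA : (S.card : ℝ) * (1.27 : ℝ) ^ a ≤ 2 * (2.27 : ℝ) ^ k := by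
      have h1 := free2 (z := 1.27) (v := 1) (Λ := 2.27) (Θ := fun _ => 1) (by norm_num) (by norm_num)
        (by norm_num) (fun _ => le_refl _) (by
          intro j _
          unfold LL
          split_ifs <;> norm_num) k S (fun x hx => ⟨(hS x hx).1, (hS x hx).2 k⟩)
      have h2 : ∑ x ∈ S, (1.27 : ℝ) ^ aa k x * (1 : ℝ) ^ bb k x = (S.card : ℝ) * (1.27 : ℝ) ^ a := by
        rw [sum_congr rfl (fun x hx => by rw [(hab x hx).1, one_pow, mul_one]), sum_const, nsmul_eq_mul]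
      rw [h2, mul_one] at h1
      exact h1
    set n : ℝ := (S.card : ℝ) with hn
    have h35 : 35 * k ≤ 62 * a + 70 := by omega
    have e1 : n ^ 62 * (1.27 : ℝ) ^ (62 * a) ≤ 2 ^ 62 * ((2.27 : ℝ) ^ 62) ^ k := by
      calc n ^ 62 * (1.27 : ℝ) ^ (62 * a) = (n * (1.27 : ℝ) ^ a) ^ 62 := by
            rw [mul_pow, ← pow_mul, mul_comm a 62]
        _ ≤ (2 * (2.27 : ℝ) ^ k) ^ 62 := pow_le_pow_left₀ (by positivity) hA 62
        _ = 2 ^ 62 * ((2.27 : ℝ) ^ 62) ^ k := by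
            rw [mul_pow, ← pow_mul, ← pow_mul, mul_comm k 62]
    have e2 : (1.27 : ℝ) ^ (35 * k) ≤ (1.27 : ℝ) ^ (62 * a) * (1.27 : ℝ) ^ 70 := by
      rw [← pow_add]
      exact pow_le_pow_right₀ (by norm_num) h35
    have e3 : (1.27 : ℝ) ^ 70 ≤ 2 ^ 62 := by norm_num
    have e4 : ((2.27 : ℝ) ^ 62) ^ k ≤ (1.99 : ℝ) ^ (62 * k) * (1.27 : ℝ) ^ (35 * k) := by
      rw [pow_mul, pow_mul, ← mul_pow]
      exact pow_le_pow_left₀ (by norm_num) (by norm_num) _
    have hP0 : (0 : ℝ) < (1.27 : ℝ) ^ (35 * k) := by positivity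
    have e5 : n ^ 62 * (1.27 : ℝ) ^ (35 * k) ≤ ((4 * (1.99 : ℝ) ^ k) ^ 62) * (1.27 : ℝ) ^ (35 * k) := by
      calc n ^ 62 * (1.27 : ℝ) ^ (35 * k) ≤ n ^ 62 * ((1.27 : ℝ) ^ (62 * a) * (1.27 : ℝ) ^ 70) :=
            mul_le_mul_of_nonneg_left e2 (pow_nonneg hn0 _)
        _ = (n ^ 62 * (1.27 : ℝ) ^ (62 * a)) * (1.27 : ℝ) ^ 70 := (mul_assoc _ _ _).symm
        _ ≤ (2 ^ 62 * ((2.27 : ℝ) ^ 62) ^ k) * 2 ^ 62 :=
            mul_le_mul e1 e3 (pow_nonneg (by norm_num) _)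
              (mul_nonneg (pow_nonneg (by norm_num) _) (pow_nonneg (pow_nonneg (by norm_num) _) _))
        _ ≤ (2 ^ 62 * ((1.99 : ℝ) ^ (62 * k) * (1.27 : ℝ) ^ (35 * k))) * 2 ^ 62 := by
            apply mul_le_mul_of_nonneg_right _ (pow_nonneg (by norm_num) _)
            exact mul_le_mul_of_nonneg_left e4 (pow_nonneg (by norm_num) _)
        _ = ((4 * (1.99 : ℝ) ^ k) ^ 62) * (1.27 : ℝ) ^ (35 * k) := by
            rw [mul_pow, ← pow_mul (1.99 : ℝ) k 62, mul_comm k 62]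
            have h4 : (4 : ℝ) ^ 62 = 2 ^ 62 * 2 ^ 62 := by norm_num
            rw [h4]
            generalize (2 : ℝ) ^ 62 = u
            generalize (1.99 : ℝ) ^ (62 * k) = w
            generalize (1.27 : ℝ) ^ (35 * k) = w'
            ring
    have e6 := le_of_mul_le_mul_right e5 hP0
    exact le_of_pow_le_pow_left₀ (by norm_num) (by positivity) e6

lemma exists_M (m : ℕ) {r : ℝ} (hr0 : 0 < r) (hr1 : r < 1) : ∃ M : ℝ, 1 ≤ M ∧
    ∀ k : ℕ, ((k : ℝ) + 1) ^ m * r ^ k ≤ M := by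
  have h1 := tendsto_pow_const_mul_const_pow_of_abs_lt_one m (r := r) (by rw [abs_of_pos hr0]; exact hr1)
  obtain ⟨M, hM⟩ := h1.bddAbove_range
  refine ⟨max 1 (M / r), le_max_left _ _, fun k => ?_⟩
  have h2 := hM ⟨k + 1, rfl⟩
  simp only at h2
  refine le_trans ?_ (le_max_right _ _)
  rw [le_div_iff₀ hr0]
  push_cast at h2
  rw [pow_succ, ← mul_assoc] at h2
  exact h2

/-- THE COUNT -/
theorem main : ∃ C : ℝ, 0 < C ∧ ∀ k, Bd C k := by
  classical
  obtain ⟨M2, hM21, hM2⟩ := exists_M 18 (r := (2.1755 : ℝ) ^ 8 / (1.9957 : ℝ) ^ 9) (by positivity) (by norm_num)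
  obtain ⟨M3, hM31, hM3⟩ := exists_M 2 (r := (1.99 : ℝ) / 1.9957) (by positivity) (by norm_num)
  set C : ℝ := 65536 * M2 + 4 * M3 with hC
  have hC1 : 1 ≤ C := by linarith
  refine ⟨C, by linarith, fun k => ?_⟩
  induction k using Nat.strong_induction_on with
  | _ k ih =>
    intro S hS
    have hmaps : ∀ x ∈ S, (aa k x, bb k x) ∈ range (k + 1) ×ˢ range (k + 1) := by
      intro x _
      rw [mem_product, mem_range, mem_range]
      have := aa_le k x; have := bb_le k x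
      constructor <;> simp only <;> omega
    have h1 := card_eq_sum_card_fiberwise (f := fun x => (aa k x, bb k x)) (s := S)
      (t := range (k + 1) ×ˢ range (k + 1)) (fun x hx => hmaps x hx)
    have hk1 : (0 : ℝ) < (k : ℝ) + 1 := by positivity
    set D : ℝ := C * (1.9957 : ℝ) ^ k / ((k : ℝ) + 1) ^ 2 with hD
    have hD0 : 0 ≤ D := by positivity
    have h2 : ∀ p ∈ range (k + 1) ×ˢ range (k + 1),
        ((S.filter (fun x => (aa k x, bb k x) = p)).card : ℝ) ≤ D := by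
      intro p _
      rcases class_bound hC1 ih (S.filter (fun x => (aa k x, bb k x) = p))
        (fun x hx => hS x (mem_filter.1 hx).1) p.1 p.2
        (fun x hx => by
          have := (mem_filter.1 hx).2
          rw [← this]
          exact ⟨rfl, rfl⟩) with h3 | h3
      · apply le_of_pow_le_pow_left₀ (n := 9) (by norm_num) hD0
        refine h3.trans ?_
        have h4 := hM2 k
        rw [div_pow, ← pow_mul (1.9957 : ℝ) 9 k, mul_div_assoc', div_le_iff₀ (by positivity)] at h4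
        rw [hD, div_pow, le_div_iff₀ (by positivity), mul_pow C, ← pow_mul (1.9957 : ℝ) k 9,
          ← pow_mul ((k : ℝ) + 1) 2 9]
        have h5 : 65536 * M2 ≤ C := by linarith
        have h6 : C ^ 2 ≤ C ^ 9 := pow_le_pow_right₀ hC1 (by norm_num)
        have h7 : (0 : ℝ) < (1.9957 : ℝ) ^ (9 * k) := by positivity
        calc 65536 * C * ((2.1755 : ℝ) ^ 8) ^ k * ((k : ℝ) + 1) ^ (2 * 9)
            = 65536 * C * (((k : ℝ) + 1) ^ 18 * ((2.1755 : ℝ) ^ 8) ^ k) := by ring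
          _ ≤ 65536 * C * (M2 * (1.9957 : ℝ) ^ (9 * k)) := by
              apply mul_le_mul_of_nonneg_left h4
              linarith
          _ = (65536 * M2) * (C * (1.9957 : ℝ) ^ (9 * k)) := by ring
          _ ≤ C * (C * (1.9957 : ℝ) ^ (9 * k)) := by
              apply mul_le_mul_of_nonneg_right h5
              have : 0 ≤ C := by linarith
              positivity
          _ = C ^ 2 * (1.9957 : ℝ) ^ (9 * k) := by ring
          _ ≤ C ^ 9 * (1.9957 : ℝ) ^ (9 * k) := mul_le_mul_of_nonneg_right h6 h7.le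
          _ = C ^ 9 * (1.9957 : ℝ) ^ (k * 9) := by rw [mul_comm 9 k]
      · refine h3.trans ?_
        have h4 := hM3 k
        rw [div_pow, mul_div_assoc', div_le_iff₀ (by positivity)] at h4
        rw [hD, le_div_iff₀ (by positivity)]
        have h7 : (0 : ℝ) < (1.9957 : ℝ) ^ k := by positivity
        calc 4 * (1.99 : ℝ) ^ k * ((k : ℝ) + 1) ^ 2 = 4 * (((k : ℝ) + 1) ^ 2 * (1.99 : ℝ) ^ k) := by ring
          _ ≤ 4 * (M3 * (1.9957 : ℝ) ^ k) := by linarith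
          _ = (4 * M3) * (1.9957 : ℝ) ^ k := by ring
          _ ≤ C * (1.9957 : ℝ) ^ k := by
              apply mul_le_mul_of_nonneg_right _ h7.le
              linarith
    have h3 : (S.card : ℝ) = ∑ p ∈ range (k + 1) ×ˢ range (k + 1),
        ((S.filter (fun x => (aa k x, bb k x) = p)).card : ℝ) := by
      rw [h1]
      push_cast
      rfl
    rw [h3]
    refine (sum_le_card_nsmul _ _ _ h2).trans (le_of_eq ?_)
    rw [card_product, card_range, nsmul_eq_mul, hD]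
    push_cast
    field_simp

end Pool.Agent.TH930.MV
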